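import Mathlib
import Pool.Agent.J4.H3.SC.Fin

/-!
# Multiplicative relations between Artin L-functions and Stark's numbers `A(χ, φ)`: the characters
with values in cyclic extensions of the rational numbers

The other definitions are in `Pool.Agent.K4H74.SC.Core`, `Pool.Agent.K4H77.SL.Def`,
`Pool.Agent.J4.H37.Stark.Field` (`expo` and `trace`) and `Pool.Agent.J4.H3.SC.Cyc`, `Fin`
(`IsCycField`, `cond`, `IsConjSum`, `PowerIsProduct`); `S` is the set of the infinite places.

Proof. Let `Γ` be the Galois group of the field of the values of `χ`. If `Γ` is not cyclic, then the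
ideal of `ℤ[Γ]` generated by the norm elements of the nontrivial subgroups contains a positive
integer, since otherwise `Γ` would embed in the units of an integral domain. So up to torsion an
inductive invariant is determined by its values at sums of conjugates of `χ` with values in smaller
fields. The characters with values in a cyclic field of conductor `f` are reduced to the traces of
the class group characters of order dividing `f` by the result `ValueFields`; if the order is smaller
than `f` then the trace has its values in a smaller cyclic field, whose conductor is smaller.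
-/

set_option autoImplicit false

namespace Pool.Agent.Results.MP_46b841_nt.CyclicValueFields

open NumberField Pool.Agent.K4H74 Pool.Agent.K4H74.SK Pool.Agent.K4H77 Pool.Agent.K4H34.AL
  Pool.Agent.J4.H37.Stark Pool.Agent.J4.H3.SC Pool.Agent.K4H74.ST

/-- The decomposition group of the ideal `P` of the integers of `L`. -/
def decompGroup {E : Ext} (P : Ideal (𝓞 E.L)) : Set (G E) :=
  {g | ∀ x y : 𝓞 E.L, (y : E.L) = emb g x → (y ∈ P ↔ x ∈ P)}

/-- The inertia group of the ideal `P` of the integers of `L`. -/
def inertiaGroup {E : Ext} (P : Ideal (𝓞 E.L)) : Set (G E) :=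
  {g | ∀ x y : 𝓞 E.L, (y : E.L) = emb g x → y - x ∈ P}

/-- `L / K` is unramified at all finite primes, and the primes above `m` split completely. -/
def UnramifiedSplit (m : ℕ) (E : Ext) : Prop :=
  ∀ P : Ideal (𝓞 E.L), P.IsMaximal → (∀ g ∈ inertiaGroup P, g = 1) ∧
    ((m : 𝓞 E.L) ∈ P → ∀ g ∈ decompGroup P, g = 1)

lemma mem_decomp {E : Ext} {P : Ideal (𝓞 E.L)} (g : G E) :
    g ∈ decompGroup P ↔ (show E.L ≃ₐ[E.K] E.L from g) ∈ SL.decomp E.K P := by
  constructor
  · intro h x
    exact h x _ rfl
  · intro h x y hy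
    have h1 : y = SL.gi (show E.L ≃ₐ[E.K] E.L from g) x := RingOfIntegers.ext hy
    rw [h1]
    exact h x

lemma mem_inertia {E : Ext} {P : Ideal (𝓞 E.L)} (g : G E) :
    g ∈ inertiaGroup P ↔ (show E.L ≃ₐ[E.K] E.L from g) ∈ SL.inertia E.K P := by
  constructor
  · intro h x
    exact h x _ rfl
  · intro h x y hy
    have h1 : y = SL.gi (show E.L ≃ₐ[E.K] E.L from g) x := RingOfIntegers.ext hy
    rw [h1]
    exact h x

/-- The linear character `ψ` takes the value `-1` at all complex conjugations. -/
def TotallyOdd {E : Ext} (ψ : G E →* ℂˣ) : Prop := ∀ t : G E, IsCC t → ψ t = -1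

/-- The basic characters for `m`: the trivial characters, the totally odd linear characters of the
extensions of the totally real fields (for these two types Stark's conjecture is known), and, for all
cyclic extensions `F` of `ℚ`, the sums of the conjugates over `F` of the faithful linear characters
whose order is the conductor of `F`, of the (cyclic) extensions `L / K`, `K` totally complex, which
are unramified at all finite primes and in which the primes above `m` split completely. -/
inductive Basic (m : ℕ) : Pair → Prop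
  | trivial (E : Ext) : Basic m ⟨E, fun _ => 1⟩
  | odd (E : Ext) (ψ : G E →* ℂˣ) : IsTotallyReal E.K → TotallyOdd ψ → Basic m ⟨E, lin ψ⟩
  | unramified (E : Ext) (ψ : G E →* ℂˣ) (F : Subfield ℂ) : IsTotallyComplex E.K →
      UnramifiedSplit m E → Function.Injective ψ → IsCycField F → orderOf ψ = cond F →
      Basic m ⟨E, trace F (cond F) ψ⟩

/-- A character with values in a cyclic extension of `ℚ`. -/
def CyclicValued (x : Pair) : Prop :=
  IsChr x.2 ∧ ∃ F : Subfield ℂ, IsCycField F ∧ ∀ g, x.2 g ∈ F

/-- For the characters with the property `T`, the defects of Stark's conjecture for the automorphism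
`σ` of `ℂ` are roots of unity. -/
def DefectsAreRootsOfUnity (c : Pair → ℂ) (σ : ℂ ≃+* ℂ) (T : Pair → Prop) : Prop :=
  ∀ x : Pair, T x → ∀ d : ℂˣ, IsDefect c σ x.2 d → IsOfFinOrder d

/-- For the characters with the property `T`, Stark's numbers `A(χ, φ)` are algebraic. -/
def AreAlgebraic (c : Pair → ℂ) (T : Pair → Prop) : Prop :=
  ∀ x : Pair, T x → ∀ a : ℂ, Pool.Agent.J4.H3.SC.IsStarkNumber c x a → IsAlgebraic ℚ a

lemma isChr_one (E : Ext) : IsChr (fun _ : G E => (1 : ℂ)) := by
  have h1 := isChr_lin (E := E) 1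
  have h2 : lin (1 : G E →* ℂˣ) = fun _ => 1 := by
    funext g
    simp [lin]
  rwa [h2] at h1

lemma isChr_trace {E : Ext} (F : Subfield ℂ) (f : ℕ) (ψ : G E →* ℂˣ) : IsChr (trace F f ψ) :=
  isChr_iff.mpr (trace_isChar (K := E.K) (L := E.L) F f ψ)

/-- the basic characters have values in cyclic fields, except for the totally odd ones -/
lemma Basic.isChr {m : ℕ} {x : Pair} (h : Basic m x) : IsChr x.2 := by
  cases h with
  | trivial E => exact isChr_one E
  | odd E ψ _ _ => exact isChr_lin ψ
  | unramified E ψ F _ _ _ _ _ => exact isChr_trace _ _ ψ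

/-- an invariant which is trivial on the basic characters is trivial -/
lemma basic_all {m : ℕ} (hm : m ≠ 0) (M : Type) [CommGroup M] (B : ArtinInvariant M)
    (hM : ∀ (y : M) (n : ℕ), 0 < n → y ^ n = 1 → y = 1) (hB : ∀ y : Pair, Basic m y → pval B y = 1)
    (x : Pair) (hx : IsChr x.2) : pval B x = 1 := by
  have i1 : TrivOne B := by
    intro K _ _
    exact hB _ (Basic.trivial ⟨K, K⟩)
  have i3 : TrivOdd B := by
    intro K L _ _ _ _ _ _ hK ψ hψ
    refine hB _ (Basic.odd ⟨K, L⟩ ψ hK ?_)
    rintro t ⟨φ, hφ⟩
    refine hψ φ t ?_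
    ext x
    exact (hφ x).symm
  refine all_case (A := B) hM x.1.K x.1.L (isChr_iff.mp hx) fun F hF θ hθ _ hval => ?_
  refine cyc_case (A := B) hm hM i1 i3 ?_ (cond F) F hF rfl x.1.K x.1.L θ hθ hval
  intro F' hF' K L _ _ _ _ _ _ hK hin hde ψ hψ hord
  exact hB _ (Basic.unramified ⟨K, L⟩ ψ F' hK (fun P hP =>
    ⟨fun g hg => hin P hP g ((mem_inertia (E := ⟨K, L⟩) g).mp hg),
      fun hmP g hg => hde P hP hmP g ((mem_decomp (E := ⟨K, L⟩) g).mp hg)⟩) hψ hF' hord)

/-- Let `c` be a system of leading coefficients at `s = 0` of the Artin L-functions (such systems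
exist; the only one is `L*(0, χ)`). Every character `χ` has for every automorphism `σ` of `ℂ`
exactly one defect `d(χ, σ)`, a nonzero number with `A(χ, φ)^σ = d(χ, σ) A(χ^σ, φ)` for all `φ`;
Stark's conjecture says that `d(χ, σ) = 1`.

(1) For every character `χ` of a Galois extension `L / K` of number fields there are finitely many
sums `θ_i` of conjugates of `χ` (over the automorphisms of `ℂ`), each with values in a cyclic
extension of `ℚ`, such that `L(s, χ)^n = ∏ L(s, θ_i)^(k_i)` for some `n ≥ 1` and integers `k_i`, with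
the same relation for the leading coefficients, the defects and, up to algebraic factors, the numbers
`A(χ, φ)`.

Let `m ≥ 1`.

(2) The sum of the conjugates over a cyclic extension `F` of `ℚ` of a linear character whose order
divides the conductor of `F` is a character with values in `F`.

(3) For every `χ` there are such relations with basic characters for `m`.

(4) For every `σ` the following are equivalent: the defects of all characters are roots of unity; the
defects of the characters with values in cyclic extensions of `ℚ` are roots of unity; the defects of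
the basic characters for `m` are roots of unity.

(5) The same for the property that all the numbers `A(χ, φ)` are algebraic. -/
theorem result : (∃ c : Pair → ℂ, IsLeading c) ∧ ∀ c : Pair → ℂ, IsLeading c →
    -- the defects
    (∀ (σ : ℂ ≃+* ℂ) (E : Ext) (χ : G E → ℂ), IsChr χ → ∃! d : ℂˣ, IsDefect c σ χ d) ∧
    -- (1)
    (∀ (E : Ext) (χ : G E → ℂ), IsChr χ →
      PowerIsProduct c (fun y => CyclicValued y ∧ ∃ θ : G E → ℂ, y = ⟨E, θ⟩ ∧ IsConjSum χ θ)
        ⟨E, χ⟩) ∧
    ∀ m : ℕ, m ≠ 0 →
      -- (2)
      (∀ (F : Subfield ℂ) (E : Ext) (ψ : G E →* ℂˣ), IsCycField F → ψ ^ cond F = 1 →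
        IsChr (trace F (cond F) ψ) ∧ ∀ g, trace F (cond F) ψ g ∈ F) ∧
      -- (3)
      (∀ x : Pair, IsChr x.2 → PowerIsProduct c (Basic m) x) ∧
      -- (4)
      (∀ σ : ℂ ≃+* ℂ, [DefectsAreRootsOfUnity c σ (fun x => IsChr x.2),
        DefectsAreRootsOfUnity c σ CyclicValued, DefectsAreRootsOfUnity c σ (Basic m)].TFAE) ∧
      -- (5)
      [AreAlgebraic c (fun x => IsChr x.2), AreAlgebraic c CyclicValued,
        AreAlgebraic c (Basic m)].TFAE := by
  refine ⟨exists_isLeading, fun c hc => ?_⟩
  have h1 : ∀ (E : Ext) (χ : G E → ℂ), IsChr χ →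
      PowerIsProduct c (fun y => CyclicValued y ∧ ∃ θ : G E → ℂ, y = ⟨E, θ⟩ ∧ IsConjSum χ θ)
        ⟨E, χ⟩ := by
    intro E χ hχ
    refine powerIsProduct hc (fun y hy => hy.1.1) hχ fun M _ B hM hB => ?_
    refine all_case (A := B) hM E.K E.L (isChr_iff.mp hχ) fun F hF θ hθ hcs hval => ?_
    exact hB ⟨E, θ⟩ ⟨⟨isChr_iff.mpr hθ, F, hF, hval⟩, θ, rfl, hcs⟩
  refine ⟨fun σ E χ hχ => existsUnique_defect hc σ hχ, h1, fun m hm => ?_⟩
  have h3 : ∀ x : Pair, IsChr x.2 → PowerIsProduct c (Basic m) x := fun x hx =>
    powerIsProduct hc (fun y hy => hy.isChr) hx fun M _ B hM hB => basic_all hm M B hM hB x hx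
  have h1' : ∀ x : Pair, IsChr x.2 → PowerIsProduct c CyclicValued x := fun x hx =>
    powerIsProduct hc (fun y hy => hy.1) hx fun M _ B hM hB =>
      all_case (A := B) hM x.1.K x.1.L (isChr_iff.mp hx) fun F hF θ hθ _ hval =>
        hB ⟨x.1, θ⟩ ⟨isChr_iff.mpr hθ, F, hF, hval⟩
  refine ⟨fun F E ψ hF hψ => ⟨isChr_trace F _ ψ, fun g =>
    trace_mem (cond_spec hF.1).1 (cond_spec hF.1).2 ψ hψ g⟩, h3, fun σ => ?_, ?_⟩
  · tfae_have 1 → 3 := fun h x hx => h x hx.isChr
    tfae_have 1 → 2 := fun h x hx => h x hx.1
    tfae_have 3 → 1 := fun h x hx d hd =>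
      defect_finOrder hc (fun y hy => hy.isChr) (h3 x hx) σ h hd
    tfae_have 2 → 1 := fun h x hx d hd =>
      defect_finOrder hc (fun y hy => hy.1) (h1' x hx) σ h hd
    tfae_finish
  · tfae_have 1 → 3 := fun h x hx => h x hx.isChr
    tfae_have 1 → 2 := fun h x hx => h x hx.1
    tfae_have 3 → 1 := fun h x hx a ha =>
      stark_algebraic hc (fun y hy => hy.isChr) (h3 x hx) h ha
    tfae_have 2 → 1 := fun h x hx a ha =>
      stark_algebraic hc (fun y hy => hy.1) (h1' x hx) h ha
    tfae_finish

end Pool.Agent.Results.MP_46b841_nt.CyclicValueFields
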