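import Mathlib
import Pool.Agent.J4.H4.Stark.Comb

/-!
# Stark's conjecture: only the class group characters of the fields `K` matter which are as large
as one likes locally, at the infinite places and at a given finite set of primes

The other definitions are in `Pool.Agent.K4H74.SC.Core` and `Pool.Agent.K4H77.SL.Def`; `S` is the
set of the infinite places. The formal properties of `A(χ, φ)` and the convergence of the Artin
L-series are proved. The definitions and the statement are those of `UnramifiedRelations`, with the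
additional condition `LocallyContains` for the fields `K`.
-/

set_option autoImplicit false

namespace Pool.Agent.Results.MP_46b841_nt.LocallyLarge

open NumberField Pool.Agent.K4H74 Pool.Agent.K4H74.SK Pool.Agent.K4H77 Pool.Agent.K4H34.AL
  Pool.Agent.J4.H4.Stark

/-- The decomposition group of the ideal `P` of the integers of `L`. -/
def decompGroup {E : Ext} (P : Ideal (𝓞 E.L)) : Set (G E) :=
  {g | ∀ x y : 𝓞 E.L, (y : E.L) = emb g x → (y ∈ P ↔ x ∈ P)}

/-- The inertia group of the ideal `P` of the integers of `L`. -/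
def inertiaGroup {E : Ext} (P : Ideal (𝓞 E.L)) : Set (G E) :=
  {g | ∀ x y : 𝓞 E.L, (y : E.L) = emb g x → y - x ∈ P}

/-- `L / K` is unramified at all finite primes, and the primes above `m` split completely. -/
def UnramifiedSplit (m : ℕ) (E : Ext) : Prop :=
  ∀ P : Ideal (𝓞 E.L), P.IsMaximal → (∀ g ∈ inertiaGroup P, g = 1) ∧
    ((m : 𝓞 E.L) ∈ P → ∀ g ∈ decompGroup P, g = 1)

/-- The completions of `K` at the primes which divide `m` contain (a copy of) the field `k`. -/
def LocallyContains (k K : Type) [Field k] [Field K] [NumberField K] (m : ℕ) : Prop :=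
  ∀ v : IsDedekindDomain.HeightOneSpectrum (𝓞 K), (m : 𝓞 K) ∈ v.asIdeal →
    Nonempty (k →+* v.adicCompletion K)

lemma mem_decomp {E : Ext} {P : Ideal (𝓞 E.L)} (g : G E) :
    g ∈ decompGroup P ↔ (show E.L ≃ₐ[E.K] E.L from g) ∈ SL.decomp E.K P := by
  constructor
  · intro h x
    exact h x _ rfl
  · intro h x y hy
    have h1 : y = SL.gi (show E.L ≃ₐ[E.K] E.L from g) x := RingOfIntegers.ext hy
    rw [h1]
    exact h x

lemma mem_inertia {E : Ext} {P : Ideal (𝓞 E.L)} (g : G E) :
    g ∈ inertiaGroup P ↔ (show E.L ≃ₐ[E.K] E.L from g) ∈ SL.inertia E.K P := by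
  constructor
  · intro h x
    exact h x _ rfl
  · intro h x y hy
    have h1 : y = SL.gi (show E.L ≃ₐ[E.K] E.L from g) x := RingOfIntegers.ext hy
    rw [h1]
    exact h x

/-- The linear character `ψ` takes the value `-1` at all complex conjugations. -/
def TotallyOdd {E : Ext} (ψ : G E →* ℂˣ) : Prop := ∀ t : G E, IsCC t → ψ t = -1

/-- The basic characters: the trivial characters, the totally odd linear characters of the
extensions of the totally real fields (for these two types Stark's conjecture is known, by the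
class number formula and Siegel's theorem), and the faithful linear characters, of order dividing
`D` (no condition if `D = 0`), of the (cyclic) extensions `L / K` which are unramified at all finite
primes and in which the primes above `m` split completely, where `K` is totally complex and the
completions of `K` at the primes above `m` contain `k`. -/
inductive Basic (k : Type) [Field k] (m D : ℕ) : Pair → Prop
  | trivial (E : Ext) : Basic k m D ⟨E, fun _ => 1⟩
  | odd (E : Ext) (ψ : G E →* ℂˣ) : IsTotallyReal E.K → TotallyOdd ψ → Basic k m D ⟨E, lin ψ⟩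
  | unramified (E : Ext) (ψ : G E →* ℂˣ) : IsTotallyComplex E.K → LocallyContains k E.K m →
      UnramifiedSplit m E → Function.Injective ψ → ψ ^ D = 1 → Basic k m D ⟨E, lin ψ⟩

lemma isChr_one (E : Ext) : IsChr (fun _ : G E => (1 : ℂ)) := by
  have h1 := isChr_lin (E := E) 1
  have h2 : lin (1 : G E →* ℂˣ) = fun _ => 1 := by
    funext g
    simp [lin]
  rwa [h2] at h1

lemma Basic.isChr {k : Type} [Field k] {m D : ℕ} {x : Pair} (h : Basic k m D x) : IsChr x.2 := by
  cases h with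
  | trivial E => exact isChr_one E
  | odd E ψ _ _ => exact isChr_lin ψ
  | unramified E ψ _ _ _ _ _ => exact isChr_lin ψ

/-- `a` is one of the numbers `A(χ, φ)`. -/
def IsStarkNumber (c : Pair → ℂ) (x : Pair) (a : ℂ) : Prop :=
  ∃ Λ : Y x.1 →ₗ[ℂ] Y x.1, IsStarkMap Λ ∧ IsA c Λ x.2 a

/-- Let `c` be a system of leading coefficients at `s = 0` of the Artin L-functions (such systems
exist; by Brauer's theorem on the meromorphic continuation, the only one is `L*(0, χ)`). Every
character `χ` has for every automorphism `σ` of `ℂ` exactly one defect `d(χ, σ)`, a nonzero number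
with `A(χ, φ)^σ = d(χ, σ) A(χ^σ, φ)` for all `φ`; Stark's conjecture says that `d(χ, σ) = 1`.

Let `m ≥ 1` and let `k` be a Galois extension of `ℚ` (for instance a field whose completions at the
primes dividing `m` contain given finite extensions of the fields `ℚ_p`, `p ∣ m`).

(1) Let `χ` be a character of a Galois extension `L / K` of number fields, and let `N`
be a Galois extension of `ℚ` which contains `L`, with a Galois group of exponent dividing `e`. There
are `n ≥ 1`, divisible only by primes which divide `2 [N : ℚ] [k : ℚ]`, basic characters `ψ_i` (for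
`k`, `m` and `D = 2 e`) and integers `k_i` such that `L(s, χ)^n = ∏ L(s, ψ_i)^(k_i)` (for the
logarithms, `Re s > 1`), the same is true for the leading coefficients at `s = 0`, for the defects
for all automorphisms `σ` of `ℂ`, and, up to an algebraic factor, for the numbers `A(χ, φ)`.

(2) For every `σ`: all the defects are roots of unity if the defects of the basic characters are.

(3) All the numbers `A(χ, φ)` are algebraic if those of the basic characters are. -/
theorem result : (∃ c : Pair → ℂ, IsLeading c) ∧ ∀ c : Pair → ℂ, IsLeading c →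
    -- the defects
    (∀ (σ : ℂ ≃+* ℂ) (E : Ext) (χ : G E → ℂ), IsChr χ → ∃! d : ℂˣ, IsDefect c σ χ d) ∧
    ∀ m : ℕ, m ≠ 0 → ∀ (k : Type) [Field k] [NumberField k] [IsGalois ℚ k],
      -- (1)
      (∀ (E : Ext) (χ : G E → ℂ), IsChr χ → ∀ (N : Type) [Field N] [NumberField N]
        [IsGalois ℚ N] [Algebra E.L N] (e : ℕ), (∀ y : N ≃ₐ[ℚ] N, y ^ e = 1) →
        ∃ n : ℕ, 0 < n ∧
          (∀ p : ℕ, p.Prime → p ∣ n → p ∣ 2 * Module.finrank ℚ N * Module.finrank ℚ k) ∧
          ∃ (r : ℕ) (x : Fin r → Pair) (j : Fin r → ℤ), (∀ i, Basic k m (2 * e) (x i)) ∧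
          (∀ s : ℂ, 1 < s.re → ∀ (l : ℂ) (l' : Fin r → ℂ), HasSum (logTerm χ s) l →
            (∀ i, HasSum (logTerm (x i).2 s) (l' i)) → n * l = ∑ i, j i * l' i) ∧
          c ⟨E, χ⟩ ^ n = ∏ i, c (x i) ^ j i ∧
          (∀ (σ : ℂ ≃+* ℂ) (d : ℂˣ) (d' : Fin r → ℂˣ), IsDefect c σ χ d →
            (∀ i, IsDefect c σ (x i).2 (d' i)) → d ^ n = ∏ i, d' i ^ j i) ∧
          ∀ (a : ℂ) (a' : Fin r → ℂ), IsStarkNumber c ⟨E, χ⟩ a →
            (∀ i, IsStarkNumber c (x i) (a' i)) →
              ∃ α : ℂ, IsAlgebraic ℚ α ∧ a ^ n = α * ∏ i, a' i ^ j i) ∧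
      -- (2)
      (∀ σ : ℂ ≃+* ℂ,
        (∀ x : Pair, Basic k m 0 x → ∀ d : ℂˣ, IsDefect c σ x.2 d → IsOfFinOrder d) →
          ∀ (E : Ext) (χ : G E → ℂ), IsChr χ → ∀ d : ℂˣ, IsDefect c σ χ d → IsOfFinOrder d) ∧
      -- (3)
      ((∀ x : Pair, Basic k m 0 x → ∀ a : ℂ, IsStarkNumber c x a → IsAlgebraic ℚ a) →
        ∀ (E : Ext) (χ : G E → ℂ), IsChr χ → ∀ a : ℂ, IsStarkNumber c ⟨E, χ⟩ a →
          IsAlgebraic ℚ a) := by
  refine ⟨exists_isLeading, fun c hc => ⟨fun σ E χ hχ => existsUnique_defect hc σ hχ,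
    fun m hm k _ _ _ => ?_⟩⟩
  have hmain : ∀ (E : Ext) (χ : G E → ℂ), IsChr χ → ∀ (N : Type) [Field N] [NumberField N]
        [IsGalois ℚ N] [Algebra E.L N] (e : ℕ), (∀ y : N ≃ₐ[ℚ] N, y ^ e = 1) →
        ∃ n : ℕ, 0 < n ∧
          (∀ p : ℕ, p.Prime → p ∣ n → p ∣ 2 * Module.finrank ℚ N * Module.finrank ℚ k) ∧
          ∃ (r : ℕ) (x : Fin r → Pair) (j : Fin r → ℤ), (∀ i, Basic k m (2 * e) (x i)) ∧
          (∀ s : ℂ, 1 < s.re → ∀ (l : ℂ) (l' : Fin r → ℂ), HasSum (logTerm χ s) l →
            (∀ i, HasSum (logTerm (x i).2 s) (l' i)) → n * l = ∑ i, j i * l' i) ∧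
          c ⟨E, χ⟩ ^ n = ∏ i, c (x i) ^ j i ∧
          (∀ (σ : ℂ ≃+* ℂ) (d : ℂˣ) (d' : Fin r → ℂˣ), IsDefect c σ χ d →
            (∀ i, IsDefect c σ (x i).2 (d' i)) → d ^ n = ∏ i, d' i ^ j i) ∧
          ∀ (a : ℂ) (a' : Fin r → ℂ), IsStarkNumber c ⟨E, χ⟩ a →
            (∀ i, IsStarkNumber c (x i) (a' i)) →
              ∃ α : ℂ, IsAlgebraic ℚ α ∧ a ^ n = α * ∏ i, a' i ^ j i := by
    intro E χ hχ N _ _ _ _ e heN
    obtain ⟨n, hn, hp, r, x, j, hx, h⟩ := power_form_k k (allInv hc) (Basic k m (2 * e)) hm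
      (fun K _ _ => Basic.trivial ⟨K, K⟩)
      (fun E hE ψ hψ => Basic.odd E ψ hE hψ)
      (fun E hE hloc hP ψ hψ hψe => Basic.unramified E ψ hE hloc (fun P hPm =>
        ⟨fun g hg => (hP P hPm).1 g ((mem_inertia g).mp hg),
          fun hmP g hg => (hP P hPm).2 hmP g ((mem_decomp g).mp hg)⟩) hψ hψe) hχ N heN
    obtain ⟨r1, r2, r3, r4⟩ := all_rel hc h
    refine ⟨n, hn, hp, r, x, j, hx, fun s hs l l' hl hl' => log_rel r1 hs hl hl', ?_, ?_, ?_⟩
    · have h1 := congrArg (Units.val) r2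
      rw [Units.val_pow_eq_pow_val, pval_lead hc (x := ⟨E, χ⟩) hχ, Units.coe_prod] at h1
      rw [h1]
      exact Finset.prod_congr rfl fun i _ => by
        rw [Units.val_zpow_eq_zpow_val, pval_lead hc (hx i).isChr]
    · intro σ d d' hd hd'
      have h1 := r3 σ
      rw [pval_defect hc σ (x := ⟨E, χ⟩) hχ hd] at h1
      rw [h1]
      exact Finset.prod_congr rfl fun i _ => by rw [pval_defect hc σ (hx i).isChr (hd' i)]
    · rintro a a' ⟨Λ, hΛ, ha⟩ ha'
      choose Λ' hΛ' ha' using ha'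
      have ha0 : a ≠ 0 := isA_ne hc (x := ⟨E, χ⟩) hχ hΛ ha
      have ha0' : ∀ i, a' i ≠ 0 := fun i => isA_ne hc (hx i).isChr (hΛ' i) (ha' i)
      have e1 : pval (algInv (leadInv hc)) ⟨E, χ⟩ = (Units.mk0 a ha0 : ℂˣ) :=
        pval_alg hc (x := ⟨E, χ⟩) hχ hΛ ha
      have e2 : ∀ i, pval (algInv (leadInv hc)) (x i) = (Units.mk0 (a' i) (ha0' i) : ℂˣ) :=
        fun i => pval_alg hc (hx i).isChr (hΛ' i) (ha' i)
      have h1 : ((Units.mk0 a ha0 ^ n : ℂˣ) : ℂˣ ⧸ algU)
          = ((∏ i, Units.mk0 (a' i) (ha0' i) ^ j i : ℂˣ) : ℂˣ ⧸ algU) := by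
        change (QuotientGroup.mk' algU) _ = (QuotientGroup.mk' algU) _
        rw [map_pow, map_prod]
        change ((Units.mk0 a ha0 : ℂˣ) : ℂˣ ⧸ algU) ^ n = _
        rw [← e1, r4]
        exact Finset.prod_congr rfl fun i _ => by rw [map_zpow, e2]; rfl
      rw [QuotientGroup.eq, mem_algU] at h1
      set P : ℂˣ := ∏ i, Units.mk0 (a' i) (ha0' i) ^ j i with hP
      refine ⟨((P⁻¹ * Units.mk0 a ha0 ^ n : ℂˣ) : ℂ), ?_, ?_⟩
      · have h2 : P⁻¹ * Units.mk0 a ha0 ^ n = ((Units.mk0 a ha0 ^ n)⁻¹ * P)⁻¹ := by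
          rw [mul_inv_rev, inv_inv]
        rw [h2, Units.val_inv_eq_inv_val]
        exact h1.inv
      · have h2 : ∏ i, a' i ^ j i = (P : ℂ) := by
          rw [hP, Units.coe_prod]
          exact Finset.prod_congr rfl fun i _ => by
            rw [Units.val_zpow_eq_zpow_val, Units.val_mk0]
        rw [h2, ← Units.val_mul, mul_comm, mul_inv_cancel_left, Units.val_pow_eq_pow_val,
          Units.val_mk0]
  refine ⟨hmain, ?_, ?_⟩
  · intro σ hb E χ hχ d hd
    obtain ⟨N, i1, i2, i3, i4⟩ := Pool.Agent.K4H34.ST.exists_gal E.L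
    obtain ⟨n, hn, -, r, x, j, hx, -, -, h, -⟩ := hmain E χ hχ N 0 (fun y => pow_zero y)
    choose d' hd' _ using fun i => existsUnique_defect hc σ (hx i).isChr
    have h1 := h σ d d' hd hd'
    have h2 : d ^ n ∈ CommGroup.torsion ℂˣ := by
      rw [h1]
      exact Subgroup.prod_mem _ fun i _ => Subgroup.zpow_mem _ (hb _ (hx i) _ (hd' i)) _
    exact (isOfFinOrder_pow.mp h2).resolve_right hn.ne'
  · intro hb E χ hχ a ha
    obtain ⟨N, i1, i2, i3, i4⟩ := Pool.Agent.K4H34.ST.exists_gal E.L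
    obtain ⟨n, hn, -, r, x, j, hx, -, -, -, h⟩ := hmain E χ hχ N 0 (fun y => pow_zero y)
    have h0 : ∀ i, ∃ a', IsStarkNumber c (x i) a' := by
      intro i
      have h' := isChr_iff.mp (hx i).isChr
      obtain ⟨φ⟩ := SC.exists_StarkMap (L := (x i).1.L) (x i).1.K
      obtain ⟨a, ha⟩ := SC.IsA.exists (leadInv hc) φ h'
      obtain ⟨Λ, hΛ, hφ⟩ := exists_new φ
      exact ⟨a, Λ, hΛ, isA_new hc hφ h' ha⟩
    choose a' ha' using h0
    obtain ⟨α, hα, h1⟩ := h a a' ha ha'
    refine IsAlgebraic.of_pow hn ?_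
    rw [h1, ← mem_QB]
    exact mul_mem (mem_QB.mpr hα) (prod_mem fun i _ =>
      zpow_mem (mem_QB.mpr (hb _ (hx i) _ (ha' i))) _)

end Pool.Agent.Results.MP_46b841_nt.LocallyLarge
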