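import Mathlib
import Pool.Agent.J4.H37.Stark.Rank4

/-!
# Multiplicative relations between Artin L-functions and Stark's numbers `A(χ, φ)`: reduction to
linear characters of large rank, without roots of unity

The other definitions are in `Pool.Agent.K4H74.SC.Core` and `Pool.Agent.K4H77.SL.Def`; `S` is the
set of the infinite places.
-/

set_option autoImplicit false

namespace Pool.Agent.Results.MP_46b841_nt.RankReduction

open NumberField Pool.Agent.K4H74 Pool.Agent.K4H74.SK Pool.Agent.K4H77 Pool.Agent.K4H34.AL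
  Pool.Agent.J4.H37.Stark Pool.Agent.K4H74.ST

/-- The number of the infinite places `v` of `K` such that the linear character `ψ` is trivial on
the decomposition groups of the places of `L` above `v`. For `ψ ≠ 1` this is the order of vanishing
of `L(s, ψ)` at `s = 0`, for `ψ = 1` the number of the infinite places of `K`. -/
noncomputable def rank {E : Ext} (ψ : G E →* ℂˣ) : ℕ :=
  Nat.card {v : InfinitePlace E.K // ∀ w : InfinitePlace E.L,
    w.comap (algebraMap E.K E.L) = v → ∀ g : G E, w.comap (emb g) = w → ψ g = 1}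

/-- The linear character `ψ` takes the value `-1` at all complex conjugations. -/
def TotallyOdd {E : Ext} (ψ : G E →* ℂˣ) : Prop := ∀ t : G E, IsCC t → ψ t = -1

/-- The basic characters for `R`: the totally odd linear characters of the extensions of the
totally real fields (for these Stark's conjecture is known), and the faithful linear characters of
the (cyclic) extensions `L / K` of rank at least `R` (among them the trivial characters of the
fields with at least `R` infinite places). -/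
inductive Basic (R : ℕ) : Pair → Prop
  | odd (E : Ext) (ψ : G E →* ℂˣ) : IsTotallyReal E.K → TotallyOdd ψ → Basic R ⟨E, lin ψ⟩
  | large (E : Ext) (ψ : G E →* ℂˣ) : Function.Injective ψ → R ≤ rank ψ → Basic R ⟨E, lin ψ⟩

lemma Basic.isChr {R : ℕ} {x : Pair} (h : Basic R x) : IsChr x.2 := by
  cases h with
  | odd E ψ _ _ => exact isChr_lin ψ
  | large E ψ _ _ => exact isChr_lin ψ

/-- `a` is one of the numbers `A(χ, φ)`. -/
def IsStarkNumber (c : Pair → ℂ) (x : Pair) (a : ℂ) : Prop :=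
  ∃ Λ : Y x.1 →ₗ[ℂ] Y x.1, IsStarkMap Λ ∧ IsA c Λ x.2 a

/-- the value of an inductive invariant is a product of powers of its values at the basic
characters -/
theorem basic_form {M : Type} [CommGroup M] (A : ArtinInvariant M) (R : ℕ) {E : Ext} {χ : G E → ℂ}
    (hχ : IsChr χ) : ∃ (r : ℕ) (x : Fin r → Pair) (k : Fin r → ℤ), (∀ i, Basic R (x i)) ∧
      pval A ⟨E, χ⟩ = ∏ i, pval A (x i) ^ k i := by
  let P : Subgroup M := Subgroup.closure {y : M | ∃ x : Pair, Basic R x ∧ y = pval A x}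
  let B : ArtinInvariant (M ⧸ P) := mapInv (QuotientGroup.mk' P) A
  have hB : ∀ x : Pair, Basic R x → B.val x.1.K x.1.L x.2 = 1 := by
    intro x hx
    exact (QuotientGroup.eq_one_iff (N := P) _).mpr (Subgroup.subset_closure ⟨x, hx, rfl⟩)
  have i3 : TrivOdd B := by
    intro K L _ _ _ _ _ _ hK ψ hψ
    refine hB _ (Basic.odd ⟨K, L⟩ ψ hK ?_)
    rintro t ⟨φ, hφ⟩
    refine hψ φ t ?_
    ext x
    exact (hφ x).symm
  have h5 := main_rank (A := B) R i3
    (fun K L _ _ _ _ _ _ θ hθ hR => hB _ (Basic.large ⟨K, L⟩ θ hθ hR))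
    E.K E.L (isChr_iff.mp hχ)
  refine closure_form A (Basic R) ?_
  have h6 : B.val E.K E.L χ = QuotientGroup.mk' P (pval A ⟨E, χ⟩) := rfl
  rw [h6] at h5
  exact (QuotientGroup.eq_one_iff _).mp h5

/-- Let `c` be a system of leading coefficients at `s = 0` of the Artin L-functions (such systems
exist; the only one is `L*(0, χ)`). Every character `χ` has for every automorphism `σ` of `ℂ`
exactly one defect `d(χ, σ)`, a nonzero number with `A(χ, φ)^σ = d(χ, σ) A(χ^σ, φ)` for all `φ`;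
Stark's conjecture says that `d(χ, σ) = 1`. Let `R` be any natural number.

(1) Let `χ` be a character of a Galois extension `L / K` of number fields. There are basic
characters `ψ_i` for `R` and integers `k_i` such that `L(s, χ) = ∏ L(s, ψ_i)^(k_i)` (for the
logarithms, `Re s > 1`), the same is true for the leading coefficients at `s = 0`, for the defects
for all automorphisms `σ` of `ℂ`, and, up to an algebraic factor, for the numbers `A(χ, φ)`.

(2) For every `σ`: Stark's conjecture for `σ` and all characters is true if it is true for `σ` and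
the basic characters for `R`.

(3) The numbers `A(χ, φ)` of all characters are algebraic if those of the basic characters for `R`
are. -/
theorem result : (∃ c : Pair → ℂ, IsLeading c) ∧ ∀ c : Pair → ℂ, IsLeading c →
    -- the defects
    (∀ (σ : ℂ ≃+* ℂ) (E : Ext) (χ : G E → ℂ), IsChr χ → ∃! d : ℂˣ, IsDefect c σ χ d) ∧
    ∀ R : ℕ,
      -- (1)
      (∀ (E : Ext) (χ : G E → ℂ), IsChr χ →
          ∃ (r : ℕ) (x : Fin r → Pair) (k : Fin r → ℤ), (∀ i, Basic R (x i)) ∧
          (∀ s : ℂ, 1 < s.re → ∀ (l : ℂ) (l' : Fin r → ℂ), HasSum (logTerm χ s) l →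
            (∀ i, HasSum (logTerm (x i).2 s) (l' i)) → l = ∑ i, k i * l' i) ∧
          c ⟨E, χ⟩ = ∏ i, c (x i) ^ k i ∧
          (∀ (σ : ℂ ≃+* ℂ) (d : ℂˣ) (d' : Fin r → ℂˣ), IsDefect c σ χ d →
            (∀ i, IsDefect c σ (x i).2 (d' i)) → d = ∏ i, d' i ^ k i) ∧
          ∀ (a : ℂ) (a' : Fin r → ℂ), IsStarkNumber c ⟨E, χ⟩ a →
            (∀ i, IsStarkNumber c (x i) (a' i)) →
              ∃ α : ℂ, IsAlgebraic ℚ α ∧ a = α * ∏ i, a' i ^ k i) ∧
      -- (2)
      (∀ σ : ℂ ≃+* ℂ, (∀ x : Pair, Basic R x → Stark c σ x.2) →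
          ∀ (E : Ext) (χ : G E → ℂ), IsChr χ → Stark c σ χ) ∧
      -- (3)
      ((∀ x : Pair, Basic R x → ∀ a : ℂ, IsStarkNumber c x a → IsAlgebraic ℚ a) →
        ∀ (E : Ext) (χ : G E → ℂ), IsChr χ →
          ∀ a : ℂ, IsStarkNumber c ⟨E, χ⟩ a → IsAlgebraic ℚ a) := by
  refine ⟨exists_isLeading, fun c hc => ⟨fun σ E χ hχ => existsUnique_defect hc σ hχ,
    fun R => ?_⟩⟩
  have hmain : ∀ (E : Ext) (χ : G E → ℂ), IsChr χ →
          ∃ (r : ℕ) (x : Fin r → Pair) (k : Fin r → ℤ), (∀ i, Basic R (x i)) ∧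
          (∀ s : ℂ, 1 < s.re → ∀ (l : ℂ) (l' : Fin r → ℂ), HasSum (logTerm χ s) l →
            (∀ i, HasSum (logTerm (x i).2 s) (l' i)) → l = ∑ i, k i * l' i) ∧
          c ⟨E, χ⟩ = ∏ i, c (x i) ^ k i ∧
          (∀ (σ : ℂ ≃+* ℂ) (d : ℂˣ) (d' : Fin r → ℂˣ), IsDefect c σ χ d →
            (∀ i, IsDefect c σ (x i).2 (d' i)) → d = ∏ i, d' i ^ k i) ∧
          ∀ (a : ℂ) (a' : Fin r → ℂ), IsStarkNumber c ⟨E, χ⟩ a →
            (∀ i, IsStarkNumber c (x i) (a' i)) →
              ∃ α : ℂ, IsAlgebraic ℚ α ∧ a = α * ∏ i, a' i ^ k i := by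
    intro E χ hχ
    obtain ⟨r, x, k, hx, h⟩ := basic_form (allInv hc) R hχ
    have h' : pval (allInv hc) ⟨E, χ⟩ ^ 1 = ∏ i, pval (allInv hc) (x i) ^ k i := by
      rw [pow_one]
      exact h
    obtain ⟨r1, r2, r3, r4⟩ := all_rel hc h'
    refine ⟨r, x, k, hx, fun s hs l l' hl hl' => ?_, ?_, ?_, ?_⟩
    · have h1 := log_rel r1 hs hl hl'
      rwa [Nat.cast_one, one_mul] at h1
    · have h1 := congrArg (Units.val) r2
      rw [pow_one, pval_lead hc (x := ⟨E, χ⟩) hχ, Units.coe_prod] at h1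
      rw [h1]
      exact Finset.prod_congr rfl fun i _ => by
        rw [Units.val_zpow_eq_zpow_val, pval_lead hc (hx i).isChr]
    · intro σ d d' hd hd'
      have h1 := r3 σ
      rw [pow_one, pval_defect hc σ (x := ⟨E, χ⟩) hχ hd] at h1
      rw [h1]
      exact Finset.prod_congr rfl fun i _ => by rw [pval_defect hc σ (hx i).isChr (hd' i)]
    · rintro a a' ⟨Λ, hΛ, ha⟩ ha'
      choose Λ' hΛ' ha' using ha'
      have ha0 : a ≠ 0 := isA_ne hc (x := ⟨E, χ⟩) hχ hΛ ha
      have ha0' : ∀ i, a' i ≠ 0 := fun i => isA_ne hc (hx i).isChr (hΛ' i) (ha' i)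
      have e1 : pval (algInv (leadInv hc)) ⟨E, χ⟩ = (Units.mk0 a ha0 : ℂˣ) :=
        pval_alg hc (x := ⟨E, χ⟩) hχ hΛ ha
      have e2 : ∀ i, pval (algInv (leadInv hc)) (x i) = (Units.mk0 (a' i) (ha0' i) : ℂˣ) :=
        fun i => pval_alg hc (hx i).isChr (hΛ' i) (ha' i)
      have h1 : ((Units.mk0 a ha0 : ℂˣ) : ℂˣ ⧸ algU)
          = ((∏ i, Units.mk0 (a' i) (ha0' i) ^ k i : ℂˣ) : ℂˣ ⧸ algU) := by
        change _ = (QuotientGroup.mk' algU) _
        rw [map_prod, ← e1]
        rw [pow_one] at r4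
        rw [r4]
        exact Finset.prod_congr rfl fun i _ => by rw [map_zpow, e2]; rfl
      rw [QuotientGroup.eq, mem_algU] at h1
      set P : ℂˣ := ∏ i, Units.mk0 (a' i) (ha0' i) ^ k i with hP
      refine ⟨((P⁻¹ * Units.mk0 a ha0 : ℂˣ) : ℂ), ?_, ?_⟩
      · have h2 : P⁻¹ * Units.mk0 a ha0 = ((Units.mk0 a ha0)⁻¹ * P)⁻¹ := by
          rw [mul_inv_rev, inv_inv]
        rw [h2, Units.val_inv_eq_inv_val]
        exact h1.inv
      · have h2 : ∏ i, a' i ^ k i = (P : ℂ) := by
          rw [hP, Units.coe_prod]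
          exact Finset.prod_congr rfl fun i _ => by
            rw [Units.val_zpow_eq_zpow_val, Units.val_mk0]
        rw [h2, ← Units.val_mul, mul_comm, mul_inv_cancel_left, Units.val_mk0]
  refine ⟨hmain, ?_, ?_⟩
  · intro σ hb E χ hχ
    obtain ⟨r, x, k, hx, -, -, h, -⟩ := hmain E χ hχ
    obtain ⟨d, hd, -⟩ := existsUnique_defect hc σ hχ
    have h1 := h σ d (fun _ => 1) hd (fun i => isDefect_one_iff.mpr (hb _ (hx i)))
    have h2 : d = 1 := by
      rw [h1]
      exact Finset.prod_eq_one fun i _ => one_zpow _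
    rw [← isDefect_one_iff, ← h2]
    exact hd
  · intro hb E χ hχ a ha
    obtain ⟨r, x, k, hx, -, -, -, h⟩ := hmain E χ hχ
    have h0 : ∀ i, ∃ a', IsStarkNumber c (x i) a' := by
      intro i
      have h' := isChr_iff.mp (hx i).isChr
      obtain ⟨φ⟩ := SC.exists_StarkMap (L := (x i).1.L) (x i).1.K
      obtain ⟨a, ha⟩ := SC.IsA.exists (leadInv hc) φ h'
      obtain ⟨Λ, hΛ, hφ⟩ := exists_new φ
      exact ⟨a, Λ, hΛ, isA_new hc hφ h' ha⟩
    choose a' ha' using h0
    obtain ⟨α, hα, h1⟩ := h a a' ha ha'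
    rw [h1, ← mem_QB]
    exact mul_mem (mem_QB.mpr hα) (prod_mem fun i _ =>
      zpow_mem (mem_QB.mpr (hb _ (hx i) _ (ha' i))) _)

end Pool.Agent.Results.MP_46b841_nt.RankReduction
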