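import Mathlib
import Pool.Agent.J4.H37.Stark.Field

/-!
# Multiplicative relations between Artin L-functions and Stark's numbers `A(χ, φ)`: the characters
with values in a given abelian field

The other definitions are in `Pool.Agent.K4H74.SC.Core`, `Pool.Agent.K4H77.SL.Def` and
`Pool.Agent.J4.H37.Stark.Field` (`expo` and `trace`); `S` is the set of the infinite places.
-/

set_option autoImplicit false

namespace Pool.Agent.Results.MP_46b841_nt.ValueFields

open NumberField Pool.Agent.K4H74 Pool.Agent.K4H74.SK Pool.Agent.K4H77 Pool.Agent.K4H34.AL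
  Pool.Agent.J4.H37.Stark

/-- The decomposition group of the ideal `P` of the integers of `L`. -/
def decompGroup {E : Ext} (P : Ideal (𝓞 E.L)) : Set (G E) :=
  {g | ∀ x y : 𝓞 E.L, (y : E.L) = emb g x → (y ∈ P ↔ x ∈ P)}

/-- The inertia group of the ideal `P` of the integers of `L`. -/
def inertiaGroup {E : Ext} (P : Ideal (𝓞 E.L)) : Set (G E) :=
  {g | ∀ x y : 𝓞 E.L, (y : E.L) = emb g x → y - x ∈ P}

/-- `L / K` is unramified at all finite primes, and the primes above `m` split completely. -/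
def UnramifiedSplit (m : ℕ) (E : Ext) : Prop :=
  ∀ P : Ideal (𝓞 E.L), P.IsMaximal → (∀ g ∈ inertiaGroup P, g = 1) ∧
    ((m : 𝓞 E.L) ∈ P → ∀ g ∈ decompGroup P, g = 1)

lemma mem_decomp {E : Ext} {P : Ideal (𝓞 E.L)} (g : G E) :
    g ∈ decompGroup P ↔ (show E.L ≃ₐ[E.K] E.L from g) ∈ SL.decomp E.K P := by
  constructor
  · intro h x
    exact h x _ rfl
  · intro h x y hy
    have h1 : y = SL.gi (show E.L ≃ₐ[E.K] E.L from g) x := RingOfIntegers.ext hy
    rw [h1]
    exact h x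

lemma mem_inertia {E : Ext} {P : Ideal (𝓞 E.L)} (g : G E) :
    g ∈ inertiaGroup P ↔ (show E.L ≃ₐ[E.K] E.L from g) ∈ SL.inertia E.K P := by
  constructor
  · intro h x
    exact h x _ rfl
  · intro h x y hy
    have h1 : y = SL.gi (show E.L ≃ₐ[E.K] E.L from g) x := RingOfIntegers.ext hy
    rw [h1]
    exact h x

/-- The linear character `ψ` takes the value `-1` at all complex conjugations. -/
def TotallyOdd {E : Ext} (ψ : G E →* ℂˣ) : Prop := ∀ t : G E, IsCC t → ψ t = -1

/-- The basic characters for the field `F` and for `f`, `m`: the trivial characters, the totally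
odd linear characters of the extensions of the totally real fields (for these two types Stark's
conjecture is known), and the sums of the conjugates over `F` of the faithful linear characters of
order dividing `f` of the (cyclic) extensions `L / K`, `K` totally complex, which are unramified at
all finite primes and in which the primes above `m` split completely. -/
inductive Basic (F : Subfield ℂ) (f m : ℕ) : Pair → Prop
  | trivial (E : Ext) : Basic F f m ⟨E, fun _ => 1⟩
  | odd (E : Ext) (ψ : G E →* ℂˣ) : IsTotallyReal E.K → TotallyOdd ψ → Basic F f m ⟨E, lin ψ⟩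
  | unramified (E : Ext) (ψ : G E →* ℂˣ) : IsTotallyComplex E.K → UnramifiedSplit m E →
      Function.Injective ψ → ψ ^ f = 1 → Basic F f m ⟨E, trace F f ψ⟩

lemma isChr_one (E : Ext) : IsChr (fun _ : G E => (1 : ℂ)) := by
  have h1 := isChr_lin (E := E) 1
  have h2 : lin (1 : G E →* ℂˣ) = fun _ => 1 := by
    funext g
    simp [lin]
  rwa [h2] at h1

lemma isChr_trace {E : Ext} (F : Subfield ℂ) (f : ℕ) (ψ : G E →* ℂˣ) : IsChr (trace F f ψ) :=
  isChr_iff.mpr (trace_isChar (K := E.K) (L := E.L) F f ψ)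

lemma Basic.isChr {F : Subfield ℂ} {f m : ℕ} {x : Pair} (h : Basic F f m x) : IsChr x.2 := by
  cases h with
  | trivial E => exact isChr_one E
  | odd E ψ _ _ => exact isChr_lin ψ
  | unramified E ψ _ _ _ _ => exact isChr_trace F f ψ

/-- `a` is one of the numbers `A(χ, φ)`. -/
def IsStarkNumber (c : Pair → ℂ) (x : Pair) (a : ℂ) : Prop :=
  ∃ Λ : Y x.1 →ₗ[ℂ] Y x.1, IsStarkMap Λ ∧ IsA c Λ x.2 a

/-- Let `c` be a system of leading coefficients at `s = 0` of the Artin L-functions (such systems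
exist; the only one is `L*(0, χ)`). Every character `χ` has for every automorphism `σ` of `ℂ`
exactly one defect `d(χ, σ)`, a nonzero number with `A(χ, φ)^σ = d(χ, σ) A(χ^σ, φ)` for all `φ`;
Stark's conjecture says that `d(χ, σ) = 1`.

Let `F` be a subfield of the field of the `f`-th roots of unity, `f ≥ 1`, and let `m ≥ 1`.

(1) The sum of the conjugates over `F` of a linear character of order dividing `f` is a character
with values in `F`.

(2) Let `χ` be a character of a Galois extension `L / K` of number fields with all its values in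
`F`. There are `n ≥ 1`, basic characters `ψ_i` for `F`, `f`, `m` and integers `k_i` such that
`L(s, χ)^n = ∏ L(s, ψ_i)^(k_i)` (for the logarithms, `Re s > 1`), the same is true for the leading
coefficients at `s = 0`, for the defects for all automorphisms `σ` of `ℂ`, and, up to an algebraic
factor, for the numbers `A(χ, φ)`.

(3) For every `σ`: the defects of all characters with values in `F` are roots of unity if the
defects of the basic characters for `F`, `f`, `m` are.

(4) The numbers `A(χ, φ)` of all characters with values in `F` are algebraic if those of the basic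
characters for `F`, `f`, `m` are. -/
theorem result : (∃ c : Pair → ℂ, IsLeading c) ∧ ∀ c : Pair → ℂ, IsLeading c →
    -- the defects
    (∀ (σ : ℂ ≃+* ℂ) (E : Ext) (χ : G E → ℂ), IsChr χ → ∃! d : ℂˣ, IsDefect c σ χ d) ∧
    ∀ (f m : ℕ) (F : Subfield ℂ), 0 < f → m ≠ 0 → F ≤ Subfield.closure {z : ℂ | z ^ f = 1} →
      -- (1)
      (∀ (E : Ext) (ψ : G E →* ℂˣ), ψ ^ f = 1 →
        IsChr (trace F f ψ) ∧ ∀ g, trace F f ψ g ∈ F) ∧
      -- (2)
      (∀ (E : Ext) (χ : G E → ℂ), IsChr χ → (∀ g, χ g ∈ F) →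
        ∃ n : ℕ, 0 < n ∧
          ∃ (r : ℕ) (x : Fin r → Pair) (k : Fin r → ℤ), (∀ i, Basic F f m (x i)) ∧
          (∀ s : ℂ, 1 < s.re → ∀ (l : ℂ) (l' : Fin r → ℂ), HasSum (logTerm χ s) l →
            (∀ i, HasSum (logTerm (x i).2 s) (l' i)) → n * l = ∑ i, k i * l' i) ∧
          c ⟨E, χ⟩ ^ n = ∏ i, c (x i) ^ k i ∧
          (∀ (σ : ℂ ≃+* ℂ) (d : ℂˣ) (d' : Fin r → ℂˣ), IsDefect c σ χ d →
            (∀ i, IsDefect c σ (x i).2 (d' i)) → d ^ n = ∏ i, d' i ^ k i) ∧
          ∀ (a : ℂ) (a' : Fin r → ℂ), IsStarkNumber c ⟨E, χ⟩ a →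
            (∀ i, IsStarkNumber c (x i) (a' i)) →
              ∃ α : ℂ, IsAlgebraic ℚ α ∧ a ^ n = α * ∏ i, a' i ^ k i) ∧
      -- (3)
      (∀ σ : ℂ ≃+* ℂ,
        (∀ x : Pair, Basic F f m x → ∀ d : ℂˣ, IsDefect c σ x.2 d → IsOfFinOrder d) →
          ∀ (E : Ext) (χ : G E → ℂ), IsChr χ → (∀ g, χ g ∈ F) →
            ∀ d : ℂˣ, IsDefect c σ χ d → IsOfFinOrder d) ∧
      -- (4)
      ((∀ x : Pair, Basic F f m x → ∀ a : ℂ, IsStarkNumber c x a → IsAlgebraic ℚ a) →
        ∀ (E : Ext) (χ : G E → ℂ), IsChr χ → (∀ g, χ g ∈ F) →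
          ∀ a : ℂ, IsStarkNumber c ⟨E, χ⟩ a → IsAlgebraic ℚ a) := by
  refine ⟨exists_isLeading, fun c hc => ⟨fun σ E χ hχ => existsUnique_defect hc σ hχ,
    fun f m F hf hm hF => ?_⟩⟩
  have hmain : ∀ (E : Ext) (χ : G E → ℂ), IsChr χ → (∀ g, χ g ∈ F) →
        ∃ n : ℕ, 0 < n ∧
          ∃ (r : ℕ) (x : Fin r → Pair) (k : Fin r → ℤ), (∀ i, Basic F f m (x i)) ∧
          (∀ s : ℂ, 1 < s.re → ∀ (l : ℂ) (l' : Fin r → ℂ), HasSum (logTerm χ s) l →
            (∀ i, HasSum (logTerm (x i).2 s) (l' i)) → n * l = ∑ i, k i * l' i) ∧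
          c ⟨E, χ⟩ ^ n = ∏ i, c (x i) ^ k i ∧
          (∀ (σ : ℂ ≃+* ℂ) (d : ℂˣ) (d' : Fin r → ℂˣ), IsDefect c σ χ d →
            (∀ i, IsDefect c σ (x i).2 (d' i)) → d ^ n = ∏ i, d' i ^ k i) ∧
          ∀ (a : ℂ) (a' : Fin r → ℂ), IsStarkNumber c ⟨E, χ⟩ a →
            (∀ i, IsStarkNumber c (x i) (a' i)) →
              ∃ α : ℂ, IsAlgebraic ℚ α ∧ a ^ n = α * ∏ i, a' i ^ k i := by
    intro E χ hχ hval
    obtain ⟨n, hn, r, x, k, hx, h⟩ := power_form3 (allInv hc) (Basic F f m) hm hf hF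
      (fun K _ _ => Basic.trivial ⟨K, K⟩)
      (fun E hE ψ hψ => Basic.odd E ψ hE hψ)
      (fun E hE hP ψ hψ hψe => Basic.unramified E ψ hE (fun P hPm =>
        ⟨fun g hg => (hP P hPm).1 g ((mem_inertia g).mp hg),
          fun hmP g hg => (hP P hPm).2 hmP g ((mem_decomp g).mp hg)⟩) hψ hψe) hχ hval
    obtain ⟨r1, r2, r3, r4⟩ := all_rel hc h
    refine ⟨n, hn, r, x, k, hx, fun s hs l l' hl hl' => log_rel r1 hs hl hl', ?_, ?_, ?_⟩
    · have h1 := congrArg (Units.val) r2
      rw [Units.val_pow_eq_pow_val, pval_lead hc (x := ⟨E, χ⟩) hχ, Units.coe_prod] at h1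
      rw [h1]
      exact Finset.prod_congr rfl fun i _ => by
        rw [Units.val_zpow_eq_zpow_val, pval_lead hc (hx i).isChr]
    · intro σ d d' hd hd'
      have h1 := r3 σ
      rw [pval_defect hc σ (x := ⟨E, χ⟩) hχ hd] at h1
      rw [h1]
      exact Finset.prod_congr rfl fun i _ => by rw [pval_defect hc σ (hx i).isChr (hd' i)]
    · rintro a a' ⟨Λ, hΛ, ha⟩ ha'
      choose Λ' hΛ' ha' using ha'
      have ha0 : a ≠ 0 := isA_ne hc (x := ⟨E, χ⟩) hχ hΛ ha
      have ha0' : ∀ i, a' i ≠ 0 := fun i => isA_ne hc (hx i).isChr (hΛ' i) (ha' i)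
      have e1 : pval (algInv (leadInv hc)) ⟨E, χ⟩ = (Units.mk0 a ha0 : ℂˣ) :=
        pval_alg hc (x := ⟨E, χ⟩) hχ hΛ ha
      have e2 : ∀ i, pval (algInv (leadInv hc)) (x i) = (Units.mk0 (a' i) (ha0' i) : ℂˣ) :=
        fun i => pval_alg hc (hx i).isChr (hΛ' i) (ha' i)
      have h1 : ((Units.mk0 a ha0 ^ n : ℂˣ) : ℂˣ ⧸ algU)
          = ((∏ i, Units.mk0 (a' i) (ha0' i) ^ k i : ℂˣ) : ℂˣ ⧸ algU) := by
        change (QuotientGroup.mk' algU) _ = (QuotientGroup.mk' algU) _
        rw [map_pow, map_prod]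
        change ((Units.mk0 a ha0 : ℂˣ) : ℂˣ ⧸ algU) ^ n = _
        rw [← e1, r4]
        exact Finset.prod_congr rfl fun i _ => by rw [map_zpow, e2]; rfl
      rw [QuotientGroup.eq, mem_algU] at h1
      set P : ℂˣ := ∏ i, Units.mk0 (a' i) (ha0' i) ^ k i with hP
      refine ⟨((P⁻¹ * Units.mk0 a ha0 ^ n : ℂˣ) : ℂ), ?_, ?_⟩
      · have h2 : P⁻¹ * Units.mk0 a ha0 ^ n = ((Units.mk0 a ha0 ^ n)⁻¹ * P)⁻¹ := by
          rw [mul_inv_rev, inv_inv]
        rw [h2, Units.val_inv_eq_inv_val]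
        exact h1.inv
      · have h2 : ∏ i, a' i ^ k i = (P : ℂ) := by
          rw [hP, Units.coe_prod]
          exact Finset.prod_congr rfl fun i _ => by
            rw [Units.val_zpow_eq_zpow_val, Units.val_mk0]
        rw [h2, ← Units.val_mul, mul_comm, mul_inv_cancel_left, Units.val_pow_eq_pow_val,
          Units.val_mk0]
  refine ⟨fun E ψ hψ => ⟨isChr_trace F f ψ, fun g => trace_mem hf hF ψ hψ g⟩, hmain, ?_, ?_⟩
  · intro σ hb E χ hχ hval d hd
    obtain ⟨n, hn, r, x, k, hx, -, -, h, -⟩ := hmain E χ hχ hval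
    choose d' hd' _ using fun i => existsUnique_defect hc σ (hx i).isChr
    have h1 := h σ d d' hd hd'
    have h2 : d ^ n ∈ CommGroup.torsion ℂˣ := by
      rw [h1]
      exact Subgroup.prod_mem _ fun i _ => Subgroup.zpow_mem _ (hb _ (hx i) _ (hd' i)) _
    exact (isOfFinOrder_pow.mp h2).resolve_right hn.ne'
  · intro hb E χ hχ hval a ha
    obtain ⟨n, hn, r, x, k, hx, -, -, -, h⟩ := hmain E χ hχ hval
    have h0 : ∀ i, ∃ a', IsStarkNumber c (x i) a' := by
      intro i
      have h' := isChr_iff.mp (hx i).isChr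
      obtain ⟨φ⟩ := SC.exists_StarkMap (L := (x i).1.L) (x i).1.K
      obtain ⟨a, ha⟩ := SC.IsA.exists (leadInv hc) φ h'
      obtain ⟨Λ, hΛ, hφ⟩ := exists_new φ
      exact ⟨a, Λ, hΛ, isA_new hc hφ h' ha⟩
    choose a' ha' using h0
    obtain ⟨α, hα, h1⟩ := h a a' ha ha'
    refine IsAlgebraic.of_pow hn ?_
    rw [h1, ← mem_QB]
    exact mul_mem (mem_QB.mpr hα) (prod_mem fun i _ =>
      zpow_mem (mem_QB.mpr (hb _ (hx i) _ (ha' i))) _)

end Pool.Agent.Results.MP_46b841_nt.ValueFields
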